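import Mathlib
import Pool.Agent.Helper22.G4.Cone
import Pool.Agent.Helper22.G4.St.P2
import Pool.Agent.Helper22.G4.St.P3
import Pool.Agent.Helper22.G4.St.P4
import Pool.Agent.Helper22.G4.St.P7

/-!
# G4-P8: forcing a flat face
-/

set_option autoImplicit false

namespace Pool.Agent.Helper4.G4

open Pool.Agent.Helper22.G4 Submodule

variable {V : Type*}

/-- the chart -/
noncomputable def Pi (g₀ gs N : E5 →ₗ[ℝ] ℝ) (x : E5) : ℝ × ℝ := (g₀ x / N x, gs x / N x)

lemma Pi_comb (g₀ gs N : E5 →ₗ[ℝ] ℝ) {x y : E5} (hx : 0 < N x) (hy : 0 < N y) {a b : ℝ}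
    (hab : a + b = 1) :
    N ((a / N x) • x + (b / N y) • y) = 1 ∧
      Pi g₀ gs N ((a / N x) • x + (b / N y) • y) =
        a • Pi g₀ gs N x + b • Pi g₀ gs N y := by
  have h1 : N ((a / N x) • x + (b / N y) • y) = 1 := by
    rw [map_add, map_smul, map_smul, smul_eq_mul, smul_eq_mul, div_mul_cancel₀ _ hx.ne',
      div_mul_cancel₀ _ hy.ne', hab]
  refine ⟨h1, ?_⟩
  unfold Pi
  rw [h1]
  ext
  · simp only [map_add, map_smul, smul_eq_mul, div_one, Prod.smul_mk, Prod.mk_add_mk]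
    ring
  · simp only [map_add, map_smul, smul_eq_mul, div_one, Prod.smul_mk, Prod.mk_add_mk]
    ring

/-- Fact C of the hints. -/
lemma factC {c : V → E5} {A : Finset V} {g₀ gs N : E5 →ₗ[ℝ] ℝ} {p q u v : V}
    (hpA : p ∈ A) (hqA : q ∈ A) (huA : u ∈ A) (hvA : v ∈ A)
    (hpq : p ≠ q) (hpu : p ≠ u) (hpv : p ≠ v) (hqu : q ≠ u) (hqv : q ≠ v)
    (hker : ∀ x, g₀ x = 0 → gs x = 0 → N x = 0 → ∃ α β : ℝ, x = α • c p + β • c q)
    (hNu : 0 < N (c u)) (hNv : 0 < N (c v))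
    (hp : FaceOn c A {p, u, v}) (hq : FaceOn c A {q, u, v})
    {Z : Finset V} (hZ : FaceOn c A (Z : Set V)) (hpqZ : ¬ (p ∈ Z ∧ q ∈ Z)) {lam : V → ℝ}
    (hlam : ∀ w ∈ Z, 0 < lam w) (hN : 0 < N (∑ w ∈ Z, lam w • c w))
    (hseg : Pi g₀ gs N (∑ w ∈ Z, lam w • c w) ∈
      segment ℝ (Pi g₀ gs N (c u)) (Pi g₀ gs N (c v))) :
    (∀ w ∈ Z, w = p ∨ w = u ∨ w = v) ∨ (∀ w ∈ Z, w = q ∨ w = u ∨ w = v) := by
  obtain ⟨a, b, ha, hb, hab, heq⟩ := hseg
  obtain ⟨hN1, hP1⟩ := Pi_comb g₀ gs N hNu hNv hab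
  set x := ∑ w ∈ Z, lam w • c w with hx
  set y := (a / N (c u)) • c u + (b / N (c v)) • c v with hy
  rw [← hP1] at heq
  have e0 : g₀ x = N x * g₀ y := by
    have := congrArg Prod.fst heq
    simp only [Pi, hN1, div_one] at this
    rw [this]
    field_simp
  have es : gs x = N x * gs y := by
    have := congrArg Prod.snd heq
    simp only [Pi, hN1, div_one] at this
    rw [this]
    field_simp
  obtain ⟨α, β, hd⟩ := hker (x - N x • y)
    (by rw [map_sub, map_smul, smul_eq_mul, e0, sub_self])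
    (by rw [map_sub, map_smul, smul_eq_mul, es, sub_self])
    (by rw [map_sub, map_smul, smul_eq_mul, hN1, mul_one, sub_self])
  have hxe : x = α • c p + β • c q + N x • y := by
    rw [← hd]
    abel
  have ha' : 0 ≤ N x * (a / N (c u)) := by positivity
  have hb' : 0 ≤ N x * (b / N (c v)) := by positivity
  -- values of functionals
  have hval : ∀ f : E5 →ₗ[ℝ] ℝ, f x = α * f (c p) + β * f (c q) +
      (N x * (a / N (c u)) * f (c u) + N x * (b / N (c v)) * f (c v)) := by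
    intro f
    conv_lhs => rw [hxe, hy]
    simp only [map_add, map_smul, smul_eq_mul]
    ring
  have hsum : ∀ f : E5 →ₗ[ℝ] ℝ, f x = ∑ w ∈ Z, lam w * f (c w) := by
    intro f
    rw [hx, map_sum]
    exact Finset.sum_congr rfl fun w _ => by rw [map_smul, smul_eq_mul]
  have hZA : ∀ w ∈ Z, w ∈ A := fun w hw => hZ.1 (by exact_mod_cast hw)
  have hge : ∀ f : E5 →ₗ[ℝ] ℝ, (∀ w ∈ A, 0 ≤ f (c w)) → 0 ≤ f x := by
    intro f hf
    rw [hsum f]
    exact Finset.sum_nonneg fun w hw => mul_nonneg (hlam w hw).le (hf w (hZA w hw))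
  have hzero : ∀ f : E5 →ₗ[ℝ] ℝ, (∀ w ∈ A, 0 ≤ f (c w)) → f x = 0 → ∀ w ∈ Z, f (c w) = 0 := by
    intro f hf h0 w hw
    rw [hsum f, Finset.sum_eq_zero_iff_of_nonneg
      (fun w hw => mul_nonneg (hlam w hw).le (hf w (hZA w hw)))] at h0
    exact (mul_eq_zero.1 (h0 w hw)).resolve_left (hlam w hw).ne'
  obtain ⟨-, fp, hfp, hfp0⟩ := hp
  obtain ⟨-, fq, hfq, hfq0⟩ := hq
  obtain ⟨-, fZ, hfZ, hfZ0⟩ := hZ
  have fpp : fp (c p) = 0 := (hfp0 p hpA).2 (by simp)
  have fpu : fp (c u) = 0 := (hfp0 u huA).2 (by simp)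
  have fpv : fp (c v) = 0 := (hfp0 v hvA).2 (by simp)
  have fpq : 0 < fp (c q) := by
    refine lt_of_le_of_ne (hfp q hqA) fun h => ?_
    have := (hfp0 q hqA).1 h.symm
    simp only [Set.mem_insert_iff, Set.mem_singleton_iff] at this
    rcases this with h | h | h
    · exact hpq h.symm
    · exact hqu h
    · exact hqv h
  have fqq : fq (c q) = 0 := (hfq0 q hqA).2 (by simp)
  have fqu : fq (c u) = 0 := (hfq0 u huA).2 (by simp)
  have fqv : fq (c v) = 0 := (hfq0 v hvA).2 (by simp)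
  have fqp : 0 < fq (c p) := by
    refine lt_of_le_of_ne (hfq p hpA) fun h => ?_
    have := (hfq0 p hpA).1 h.symm
    simp only [Set.mem_insert_iff, Set.mem_singleton_iff] at this
    rcases this with h | h | h
    · exact hpq h
    · exact hpu h
    · exact hpv h
  have hβ : 0 ≤ β := by
    have h := hge fp hfp
    rw [hval fp, fpp, fpu, fpv] at h
    by_contra hneg
    push Not at hneg
    nlinarith
  have hα : 0 ≤ α := by
    have h := hge fq hfq
    rw [hval fq, fqq, fqu, fqv] at h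
    by_contra hneg
    push Not at hneg
    nlinarith
  have hfx : fZ x = 0 := by
    rw [hsum fZ]
    exact Finset.sum_eq_zero fun w hw => by
      rw [(hfZ0 w (hZA w hw)).2 (by exact_mod_cast hw), mul_zero]
  rw [hval fZ] at hfx
  have t1 : 0 ≤ α * fZ (c p) := mul_nonneg hα (hfZ p hpA)
  have t2 : 0 ≤ β * fZ (c q) := mul_nonneg hβ (hfZ q hqA)
  have t3 : 0 ≤ N x * (a / N (c u)) * fZ (c u) := mul_nonneg ha' (hfZ u huA)
  have t4 : 0 ≤ N x * (b / N (c v)) * fZ (c v) := mul_nonneg hb' (hfZ v hvA)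
  by_cases hpZ : p ∈ Z
  · have hqZ : q ∉ Z := fun h => hpqZ ⟨hpZ, h⟩
    have h1 : 0 < fZ (c q) := by
      refine lt_of_le_of_ne (hfZ q hqA) fun h => hqZ ?_
      exact_mod_cast (hfZ0 q hqA).1 h.symm
    have h2 : β * fZ (c q) = 0 := by linarith
    have h3 : β = 0 := (mul_eq_zero.1 h2).resolve_right h1.ne'
    left
    intro w hw
    have h4 : fp x = 0 := by rw [hval fp, fpp, fpu, fpv, h3]; ring
    have h5 := (hfp0 w (hZA w hw)).1 (hzero fp hfp h4 w hw)
    simpa using h5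
  · have h1 : 0 < fZ (c p) := by
      refine lt_of_le_of_ne (hfZ p hpA) fun h => hpZ ?_
      exact_mod_cast (hfZ0 p hpA).1 h.symm
    have h2 : α * fZ (c p) = 0 := by linarith
    have h3 : α = 0 := (mul_eq_zero.1 h2).resolve_right h1.ne'
    right
    intro w hw
    have h4 : fq x = 0 := by rw [hval fq, fqq, fqu, fqv, h3]; ring
    have h5 := (hfq0 w (hZA w hw)).1 (hzero fq hfq h4 w hw)
    simpa using h5

/-- two vertices are independent -/
lemma pair_indep {c : V → E5} {A : Finset V} (hc : Conf c A) {p q : V} (hpA : p ∈ A)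
    (hqA : q ∈ A) (hpq : p ≠ q) {a b : ℝ} (h : a • c p + b • c q = 0) : a = 0 ∧ b = 0 := by
  obtain ⟨-, fp, hfp, hfp0⟩ := hc.vert p hpA
  obtain ⟨-, fq, hfq, hfq0⟩ := hc.vert q hqA
  have fpp : fp (c p) = 0 := (hfp0 p hpA).2 (by simp)
  have fqq : fq (c q) = 0 := (hfq0 q hqA).2 (by simp)
  have fpq : fp (c q) ≠ 0 := fun h => hpq ((by simpa using (hfp0 q hqA).1 h : q = p)).symm
  have fqp : fq (c p) ≠ 0 := fun h => hpq (by simpa using (hfq0 p hpA).1 h : p = q)
  have e1 := congrArg fp h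
  have e2 := congrArg fq h
  simp only [map_add, map_smul, smul_eq_mul, map_zero, fpp, fqq, mul_zero, zero_add,
    add_zero] at e1 e2
  exact ⟨(mul_eq_zero.1 e2).resolve_right fqp, (mul_eq_zero.1 e1).resolve_right fpq⟩

lemma ker_lemma {c : V → E5} {A : Finset V} (hc : Conf c A) {p q a b s : V} (hpA : p ∈ A)
    (hqA : q ∈ A) (hpq : p ≠ q) {g₀ g₁ gs : E5 →ₗ[ℝ] ℝ}
    (g0p : g₀ (c p) = 0) (g0q : g₀ (c q) = 0) (g0b : g₀ (c b) = 0) (g0s : g₀ (c s) = 0)
    (g0a : g₀ (c a) ≠ 0)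
    (g1p : g₁ (c p) = 0) (g1q : g₁ (c q) = 0) (g1a : g₁ (c a) = 0) (g1s : g₁ (c s) = 0)
    (g1b : g₁ (c b) ≠ 0)
    (gsp : gs (c p) = 0) (gsq : gs (c q) = 0) (gsa : gs (c a) = 0) (gsb : gs (c b) = 0)
    (gss : gs (c s) ≠ 0) (x : E5) (h0 : g₀ x = 0) (h1 : g₁ x = 0) (h2 : gs x = 0) :
    ∃ α β : ℝ, x = α • c p + β • c q := by
  have hli : LinearIndependent ℝ (![c p, c q, c a, c b, c s] : Fin 5 → E5) := by
    rw [Fintype.linearIndependent_iff]
    intro k hk
    rw [Fin.sum_univ_five] at hk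
    change k 0 • c p + k 1 • c q + k 2 • c a + k 3 • c b + k 4 • c s = 0 at hk
    have e0 := congrArg g₀ hk
    have e1 := congrArg g₁ hk
    have e2 := congrArg gs hk
    simp only [map_add, map_smul, smul_eq_mul, map_zero, g0p, g0q, g0b, g0s, g1p, g1q, g1a, g1s,
      gsp, gsq, gsa, gsb, mul_zero, zero_add, add_zero] at e0 e1 e2
    have k2 : k 2 = 0 := (mul_eq_zero.1 e0).resolve_right g0a
    have k3 : k 3 = 0 := (mul_eq_zero.1 e1).resolve_right g1b
    have k4 : k 4 = 0 := (mul_eq_zero.1 e2).resolve_right gss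
    rw [k2, k3, k4, zero_smul, zero_smul, zero_smul, add_zero, add_zero, add_zero] at hk
    obtain ⟨k0, k1⟩ := pair_indep hc hpA hqA hpq hk
    intro i
    fin_cases i
    · exact k0
    · exact k1
    · exact k2
    · exact k3
    · exact k4
  have htop := hli.span_eq_top_of_card_eq_finrank' (by simp)
  have hx : x ∈ span ℝ (Set.range (![c p, c q, c a, c b, c s] : Fin 5 → E5)) := by
    rw [htop]
    exact mem_top
  obtain ⟨k, hk⟩ := (Submodule.mem_span_range_iff_exists_fun ℝ).1 hx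
  rw [Fin.sum_univ_five] at hk
  change k 0 • c p + k 1 • c q + k 2 • c a + k 3 • c b + k 4 • c s = x at hk
  have e0 := congrArg g₀ hk
  have e1 := congrArg g₁ hk
  have e2 := congrArg gs hk
  simp only [map_add, map_smul, smul_eq_mul, g0p, g0q, g0b, g0s, g1p, g1q, g1a, g1s,
    gsp, gsq, gsa, gsb, mul_zero, zero_add, add_zero, h0, h1, h2] at e0 e1 e2
  have k2 : k 2 = 0 := (mul_eq_zero.1 e0).resolve_right g0a
  have k3 : k 3 = 0 := (mul_eq_zero.1 e1).resolve_right g1b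
  have k4 : k 4 = 0 := (mul_eq_zero.1 e2).resolve_right gss
  rw [k2, k3, k4, zero_smul, zero_smul, zero_smul, add_zero, add_zero, add_zero] at hk
  exact ⟨k 0, k 1, hk.symm⟩

/-- The face next to a face `T` in the direction of `g`. -/
lemma facet {c : V → E5} {A : Finset V} {T : Set V} {f g : E5 →ₗ[ℝ] ℝ}
    (hf : ∀ w ∈ A, 0 ≤ f (c w)) (hfT : ∀ w ∈ A, (f (c w) = 0 ↔ w ∈ T)) (hTA : T ⊆ A)
    (hgT : ∀ w ∈ T, g (c w) = 0) {w₀ : V} (hw₀ : w₀ ∈ A) (hg₀ : 0 < g (c w₀)) :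
    ∃ F : Finset V, FaceOn c A (F : Set V) ∧ (∀ w ∈ T, w ∈ F) ∧
      (∀ w ∈ F, w ∈ T ∨ 0 < g (c w)) ∧ ∃ w ∈ F, 0 < g (c w) := by
  classical
  obtain ⟨w₁, hw₁, hmin⟩ := Finset.exists_min_image (A.filter fun w => 0 < g (c w))
    (fun w => f (c w) / g (c w)) ⟨w₀, Finset.mem_filter.2 ⟨hw₀, hg₀⟩⟩
  rw [Finset.mem_filter] at hw₁
  obtain ⟨hw₁A, hw₁g⟩ := hw₁
  set t := f (c w₁) / g (c w₁) with ht
  have hfpos : ∀ w ∈ A, 0 < g (c w) → 0 < f (c w) := by
    intro w hw hg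
    refine lt_of_le_of_ne (hf w hw) fun h => ?_
    rw [hgT w ((hfT w hw).1 h.symm)] at hg
    exact lt_irrefl _ hg
  have htpos : 0 < t := div_pos (hfpos w₁ hw₁A hw₁g) hw₁g
  have hval : ∀ w, (f - t • g) (c w) = f (c w) - t * g (c w) := by
    intro w
    rw [LinearMap.sub_apply, LinearMap.smul_apply, smul_eq_mul]
  have hnn : ∀ w ∈ A, 0 ≤ (f - t • g) (c w) := by
    intro w hw
    rw [hval]
    by_cases hg : 0 < g (c w)
    · have := hmin w (Finset.mem_filter.2 ⟨hw, hg⟩)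
      rw [le_div_iff₀ hg] at this
      linarith
    · push Not at hg
      have := hf w hw
      nlinarith
  refine ⟨A.filter fun w => (f - t • g) (c w) = 0, ⟨?_, f - t • g, hnn, ?_⟩, ?_, ?_, w₁, ?_, hw₁g⟩
  · intro w hw
    rw [Finset.mem_coe, Finset.mem_filter] at hw
    exact_mod_cast hw.1
  · intro w hw
    rw [Finset.mem_coe, Finset.mem_filter]
    exact ⟨fun h => ⟨hw, h⟩, fun h => h.2⟩
  · intro w hw
    have hwA : w ∈ A := by exact_mod_cast hTA hw
    rw [Finset.mem_filter]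
    refine ⟨hwA, ?_⟩
    rw [hval, (hfT w hwA).2 hw, hgT w hw]
    ring
  · intro w hw
    rw [Finset.mem_filter] at hw
    by_cases hg : 0 < g (c w)
    · exact Or.inr hg
    · left
      push Not at hg
      have h1 := hw.2
      rw [hval] at h1
      have h2 := hf w hw.1
      exact (hfT w hw.1).1 (by nlinarith)
  · rw [Finset.mem_filter]
    refine ⟨hw₁A, ?_⟩
    rw [hval, ht, div_mul_cancel₀ _ hw₁g.ne', sub_self]

/-- The half open segments towards the barycentre of `F` miss the polygon. -/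
lemma halfopen {c : V → E5} {g₀ gs N : E5 →ₗ[ℝ] ℝ} {F G : Finset V} (hGF : G ⊆ F)
    (hG : 0 < N (∑ w ∈ G, c w)) (hFN : 0 < N (∑ w ∈ F, c w)) {S : Set (ℝ × ℝ)}
    (hF : ∀ lam : V → ℝ, (∀ w ∈ F, 0 < lam w) → 0 < N (∑ w ∈ F, lam w • c w) →
      Pi g₀ gs N (∑ w ∈ F, lam w • c w) ∉ S) {a b : ℝ} (ha : 0 ≤ a) (hb : 0 < b)
    (hab : a + b = 1) :
    a • Pi g₀ gs N (∑ w ∈ G, c w) + b • Pi g₀ gs N (∑ w ∈ F, c w) ∉ S := by
  classical
  obtain ⟨h1, h2⟩ := Pi_comb g₀ gs N hG hFN hab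
  rw [← h2]
  have e : (a / N (∑ w ∈ G, c w)) • (∑ w ∈ G, c w) + (b / N (∑ w ∈ F, c w)) • (∑ w ∈ F, c w) =
      ∑ w ∈ F, ((b / N (∑ w ∈ F, c w)) +
        if w ∈ G then (a / N (∑ w ∈ G, c w)) else 0) • c w := by
    have e1 : ∑ w ∈ F, (if w ∈ G then (a / N (∑ w ∈ G, c w)) else 0) • c w =
        (a / N (∑ w ∈ G, c w)) • (∑ w ∈ G, c w) := by
      rw [Finset.smul_sum, ← Finset.sum_subset hGF (f := fun w =>
        (if w ∈ G then (a / N (∑ w ∈ G, c w)) else 0) • c w)]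
      · exact Finset.sum_congr rfl fun w hw => by rw [if_pos hw]
      · intro w _ hw
        rw [if_neg hw, zero_smul]
    rw [add_comm, Finset.smul_sum (s := F), ← e1, ← Finset.sum_add_distrib]
    exact Finset.sum_congr rfl fun w _ => by rw [add_smul]
  rw [e] at h1 ⊢
  refine hF _ (fun w _ => ?_) (by rw [h1]; exact one_pos)
  have : 0 < b / N (∑ w ∈ F, c w) := div_pos hb hFN
  split_ifs
  · have : 0 ≤ a / N (∑ w ∈ G, c w) := div_nonneg ha hG.le
    linarith
  · linarith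

/-- going around the cycle -/
lemma around {n : ℕ} {r : Fin (n + 4) → V} {F : Finset V} {i₀ : Fin (n + 4)} (h0 : r i₀ ∈ F)
    (hstep : ∀ i, r i ∈ F → r (i + 1) ∈ F) (i : Fin (n + 4)) : r i ∈ F := by
  have h : ∀ k : Fin (n + 3 + 1), r (i₀ + k) ∈ F := by
    intro k
    induction k using Fin.induction with
    | zero => rwa [add_zero]
    | succ k ih =>
      have := hstep _ ih
      rwa [add_assoc, Fin.coeSucc_eq_succ] at this
  have := h (i - i₀)
  rwa [add_sub_cancel] at this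

lemma fin_one_add_one (n : ℕ) : (1 : Fin (n + 4)) + 1 = 2 := by
  apply Fin.ext
  change (1 % (n + 4) + 1 % (n + 4)) % (n + 4) = 2 % (n + 4)
  rw [← Nat.add_mod]

lemma fin_two_ne_zero (n : ℕ) : (2 : Fin (n + 4)) ≠ 0 := by
  intro h
  have h3 := congrArg Fin.val h
  change 2 % (n + 4) = 0 at h3
  rw [Nat.mod_eq_of_lt (by omega)] at h3
  omega

/-- The neighbours of `r i` in a face `Z` whose vertices are in the cycle or equal to `p`. -/
lemma neigh {c : V → E5} {A : Finset V} {n : ℕ} {r : Fin (n + 4) → V} {p : V}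
    (hchord : ∀ i j, j ≠ i → j ≠ i + 1 → i ≠ j + 1 → ¬ FaceOn c A {r i, r j})
    {Z : Finset V} (hZ : ∀ w ∈ Z, w = p ∨ w ∈ Set.range r) (i : Fin (n + 4)) :
    {t | t ∈ Z ∧ t ≠ r i ∧ FaceOn c A {r i, t}} ⊆ {p, r (i - 1), r (i + 1)} := by
  rintro t ⟨htZ, hti, htf⟩
  simp only [Set.mem_insert_iff, Set.mem_singleton_iff]
  rcases hZ t htZ with h | ⟨j, rfl⟩
  · exact Or.inl h
  · right
    by_contra hcon
    push Not at hcon
    refine hchord i j (fun h => hti (by rw [h])) (fun h => hcon.2 (by rw [h])) (fun h => hcon.1 ?_)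
      htf
    rw [h, add_sub_cancel_right]

lemma neigh' {c : V → E5} {A : Finset V} {n : ℕ} {r : Fin (n + 4) → V}
    (hchord : ∀ i j, j ≠ i → j ≠ i + 1 → i ≠ j + 1 → ¬ FaceOn c A {r i, r j})
    {Z : Finset V} (hZ : ∀ w ∈ Z, w ∈ Set.range r) (i : Fin (n + 4)) :
    {t | t ∈ Z ∧ t ≠ r i ∧ FaceOn c A {r i, t}} ⊆ {r (i - 1), r (i + 1)} := by
  rintro t ⟨htZ, hti, htf⟩
  simp only [Set.mem_insert_iff, Set.mem_singleton_iff]
  obtain ⟨j, rfl⟩ := hZ t htZ
  by_contra hcon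
  push Not at hcon
  refine hchord i j (fun h => hti (by rw [h])) (fun h => hcon.2 (by rw [h])) (fun h => hcon.1 ?_)
    htf
  rw [h, add_sub_cancel_right]

/-- The last step of the proof: a face of rank at least four in `R ∪ {p}` forces the flat face. -/
lemma final {c : V → E5} {A : Finset V} (hc : Conf c A) {n : ℕ} (r : Fin (n + 4) → V)
    (hinj : Function.Injective r) {p : V} (hpr : ∀ i, p ≠ r i)
    (hchord : ∀ i j, j ≠ i → j ≠ i + 1 → i ≠ j + 1 → ¬ FaceOn c A {r i, r j})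
    {F : Finset V} (hF : FaceOn c A (F : Set V)) (hF4 : 4 ≤ rk c (F : Set V))
    (h1F : r 1 ∈ F) (hFr : ∀ w ∈ F, w = p ∨ w ∈ Set.range r) :
    FaceOn c A (Set.range r) ∧ rk c (Set.range r) = 3 := by
  classical
  have hneq : ∀ i : Fin (n + 4), r (i - 1) ≠ r (i + 1) := by
    intro i h
    have h1 := hinj h
    refine fin_two_ne_zero n ?_
    have : i + 1 - (i - 1) = 2 := by
      rw [sub_sub_eq_add_sub, add_assoc, add_sub_cancel_left, fin_one_add_one]
    rw [← this, h1, sub_self]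
  -- all vertices are in `F`
  have hnb : ∀ i, r i ∈ F → ∀ t, (t = p ∨ t = r (i - 1) ∨ t = r (i + 1)) →
      t ∈ F ∧ FaceOn c A {r i, t} := by
    intro i hi t ht
    have e1 := rank_le_neighbours hc hF hi
    have e2 := neigh hchord hFr i
    have e3 : ({p, r (i - 1), r (i + 1)} : Set V).ncard ≤
        {t | t ∈ F ∧ t ≠ r i ∧ FaceOn c A {r i, t}}.ncard := by
      have : ({p, r (i - 1), r (i + 1)} : Set V).ncard ≤ 3 := by
        have := Set.ncard_insert_le p {r (i - 1), r (i + 1)}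
        have := Set.ncard_insert_le (r (i - 1)) {r (i + 1)}
        rw [Set.ncard_singleton] at this
        omega
      omega
    have e4 := Set.eq_of_subset_of_ncard_le e2 e3 (Set.toFinite _)
    have e5 : t ∈ ({p, r (i - 1), r (i + 1)} : Set V) := by
      simpa using ht
    rw [← e4] at e5
    exact ⟨e5.1, e5.2.2⟩
  have hall : ∀ i, r i ∈ F := around h1F fun i hi => (hnb i hi _ (Or.inr (Or.inr rfl))).1
  have hpF : p ∈ F := (hnb 1 h1F _ (Or.inl rfl)).1
  have e10 : (1 : Fin (n + 4)) - 1 = 0 := sub_self _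
  have e12 : (1 : Fin (n + 4)) + 1 = 2 := fin_one_add_one n
  -- the span of `F`
  have hcF : Conf c F := hc.restrict hF.1
  have hcore : ∀ w ∈ F, ∃ a b₀ b₁ b₂ : ℝ, 0 ≤ b₀ ∧
      c w = a • c (r 1) + (b₀ • c p + b₁ • c (r 0) + b₂ • c (r 2)) := by
    intro w hw
    obtain ⟨a, b, hb, hb', hcw⟩ := core hcF h1F hw
    have hsub : ({p, r 0, r 2} : Finset V) ⊆ F := by
      intro t ht
      simp only [Finset.mem_insert, Finset.mem_singleton] at ht
      rcases ht with rfl | rfl | rfl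
      · exact hpF
      · exact hall 0
      · exact hall 2
    have hp0 : p ∉ ({r 0, r 2} : Finset V) := by
      simp only [Finset.mem_insert, Finset.mem_singleton]
      rintro (h | h)
      · exact hpr 0 h
      · exact hpr 2 h
    have h02 : r 0 ∉ ({r 2} : Finset V) := by
      simp only [Finset.mem_singleton]
      have := hneq 1
      rwa [e10, e12] at this
    refine ⟨a, b p, b (r 0), b (r 2), hb p hpF, ?_⟩
    rw [hcw]
    congr 1
    rw [← Finset.sum_subset hsub (f := fun t => b t • c t)]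
    · rw [Finset.sum_insert hp0, Finset.sum_insert h02, Finset.sum_singleton, add_assoc]
    · intro t ht ht'
      by_cases hbt : b t = 0
      · rw [hbt, zero_smul]
      · exfalso
        obtain ⟨ht1, ht2⟩ := hb' t ht hbt
        have ht3 := hF.trans ht2
        have ht4 := neigh hchord hFr 1 ⟨ht, ht1, ht3⟩
        rw [e10, e12] at ht4
        simp only [Set.mem_insert_iff, Set.mem_singleton_iff] at ht4
        apply ht'
        simpa using ht4
  have hspan : span ℝ (c '' (F : Set V)) ≤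
      span ℝ (({c p, c (r 0), c (r 1), c (r 2)} : Finset E5) : Set E5) := by
    rw [span_le]
    rintro _ ⟨w, hw, rfl⟩
    obtain ⟨a, b₀, b₁, b₂, -, he⟩ := hcore w (by exact_mod_cast hw)
    rw [he]
    have hmem : ∀ x ∈ ({c p, c (r 0), c (r 1), c (r 2)} : Finset E5),
        x ∈ span ℝ (({c p, c (r 0), c (r 1), c (r 2)} : Finset E5) : Set E5) :=
      fun x hx => subset_span (by exact_mod_cast hx)
    exact add_mem (smul_mem _ _ (hmem _ (by simp))) (add_mem (add_mem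
      (smul_mem _ _ (hmem _ (by simp))) (smul_mem _ _ (hmem _ (by simp))))
      (smul_mem _ _ (hmem _ (by simp))))
  have hF4' : rk c (F : Set V) ≤ 4 := by
    refine (Submodule.finrank_mono hspan).trans ((finrank_span_finset_le_card _).trans ?_)
    exact Finset.card_le_four
  have hpnot : c p ∉ span ℝ (({c (r 0), c (r 1), c (r 2)} : Finset E5) : Set E5) := by
    intro hmem
    have h2 : span ℝ (({c p, c (r 0), c (r 1), c (r 2)} : Finset E5) : Set E5) ≤
        span ℝ (({c (r 0), c (r 1), c (r 2)} : Finset E5) : Set E5) := by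
      rw [span_le]
      intro x hx
      simp only [Finset.coe_insert, Finset.coe_singleton, Set.mem_insert_iff,
        Set.mem_singleton_iff] at hx
      rcases hx with rfl | hx
      · exact hmem
      · exact subset_span (by simpa using hx)
    have h3 : rk c (F : Set V) ≤ 3 := by
      refine (Submodule.finrank_mono (hspan.trans h2)).trans
        ((finrank_span_finset_le_card _).trans ?_)
      exact Finset.card_le_three
    omega
  obtain ⟨l, hlp, hlk⟩ := exists_le_ker_of_notMem hpnot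
  have hl0 : ∀ x ∈ ({c (r 0), c (r 1), c (r 2)} : Finset E5), l x = 0 := by
    intro x hx
    have := hlk (subset_span (by exact_mod_cast hx : x ∈ _))
    rwa [LinearMap.mem_ker] at this
  -- normalise
  set l' : E5 →ₗ[ℝ] ℝ := (l (c p))⁻¹ • l with hl'
  have hl'p : l' (c p) = 1 := by
    rw [hl', LinearMap.smul_apply, smul_eq_mul, inv_mul_cancel₀ hlp]
  have hl'0 : ∀ x ∈ ({c (r 0), c (r 1), c (r 2)} : Finset E5), l' x = 0 := by
    intro x hx
    rw [hl', LinearMap.smul_apply, hl0 x hx, smul_zero]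
  have hl'F : ∀ w ∈ F, 0 ≤ l' (c w) := by
    intro w hw
    obtain ⟨a, b₀, b₁, b₂, hb, he⟩ := hcore w hw
    rw [he]
    simp only [map_add, map_smul, smul_eq_mul, hl'p, hl'0 (c (r 0)) (by simp),
      hl'0 (c (r 1)) (by simp), hl'0 (c (r 2)) (by simp)]
    linarith
  obtain ⟨Z, hZdef⟩ : ∃ Z : Finset V, Z = F.filter fun w => l' (c w) = 0 := ⟨_, rfl⟩
  have hmemZ : ∀ w, w ∈ Z ↔ w ∈ F ∧ l' (c w) = 0 := by
    intro w
    rw [hZdef, Finset.mem_filter]
  have hZF : FaceOn c F (Z : Set V) := by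
    refine ⟨fun w hw => ?_, l', hl'F, fun w hw => ?_⟩
    · exact_mod_cast ((hmemZ w).1 (by exact_mod_cast hw)).1
    · rw [Finset.mem_coe, hmemZ]
      exact ⟨fun h => ⟨hw, h⟩, fun h => h.2⟩
  have hZA : FaceOn c A (Z : Set V) := hF.trans hZF
  have hpZ : p ∉ Z := by
    rw [hmemZ]
    rintro ⟨-, h⟩
    rw [hl'p] at h
    exact one_ne_zero h
  have hr0Z : r 0 ∈ Z := (hmemZ _).2 ⟨hall 0, hl'0 _ (by simp)⟩
  have hr1Z : r 1 ∈ Z := (hmemZ _).2 ⟨hall 1, hl'0 _ (by simp)⟩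
  have hr2Z : r 2 ∈ Z := (hmemZ _).2 ⟨hall 2, hl'0 _ (by simp)⟩
  have hZr : ∀ w ∈ Z, w ∈ Set.range r := by
    intro w hw
    rcases hFr w ((hmemZ w).1 hw).1 with h | h
    · exact absurd (h ▸ hw) hpZ
    · exact h
  -- rank of `Z`
  have hZle : rk c (Z : Set V) ≤ 3 := by
    have hlt : span ℝ (c '' (Z : Set V)) < span ℝ (c '' (F : Set V)) := by
      refine lt_of_le_of_ne (span_mono (Set.image_mono hZF.1)) fun h => ?_
      have h1 : c p ∈ span ℝ (c '' (F : Set V)) :=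
        subset_span ⟨p, by exact_mod_cast hpF, rfl⟩
      rw [← h] at h1
      have h2 : span ℝ (c '' (Z : Set V)) ≤ LinearMap.ker l' := by
        rw [span_le]
        rintro _ ⟨w, hw, rfl⟩
        exact ((hmemZ w).1 (by exact_mod_cast hw)).2
      have h3 := h2 h1
      rw [LinearMap.mem_ker, hl'p] at h3
      exact one_ne_zero h3
    have := Submodule.finrank_lt_finrank_of_lt hlt
    have h4 : Module.finrank ℝ (span ℝ (c '' (F : Set V))) ≤ 4 := hF4'
    unfold rk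
    omega
  have hZge : 3 ≤ rk c (Z : Set V) := by
    by_contra hcon
    push Not at hcon
    have h1 : span ℝ (c '' (F : Set V)) ≤ span ℝ {c p} ⊔ span ℝ (c '' (Z : Set V)) := by
      rw [span_le]
      rintro _ ⟨w, hw, rfl⟩
      obtain ⟨a, b₀, b₁, b₂, -, he⟩ := hcore w (by exact_mod_cast hw)
      rw [he]
      have m0 : c p ∈ span ℝ {c p} ⊔ span ℝ (c '' (Z : Set V)) :=
        mem_sup_left (mem_span_singleton_self _)
      have mZ : ∀ v ∈ Z, c v ∈ span ℝ {c p} ⊔ span ℝ (c '' (Z : Set V)) :=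
        fun v hv => mem_sup_right (subset_span ⟨v, by exact_mod_cast hv, rfl⟩)
      exact add_mem (smul_mem _ _ (mZ _ hr1Z)) (add_mem (add_mem (smul_mem _ _ m0)
        (smul_mem _ _ (mZ _ hr0Z))) (smul_mem _ _ (mZ _ hr2Z)))
    have h2 := (Submodule.finrank_mono h1).trans (Submodule.finrank_add_le_finrank_add_finrank _ _)
    have h3 : Module.finrank ℝ (span ℝ {c p}) ≤ 1 := by
      have := finrank_span_finset_le_card (R := ℝ) ({c p} : Finset E5)
      rw [Finset.coe_singleton, Finset.card_singleton] at this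
      exact this
    unfold rk at hcon hF4
    omega
  have hZ3 : rk c (Z : Set V) = 3 := le_antisymm hZle hZge
  have hallZ : ∀ i, r i ∈ Z := by
    refine around hr1Z fun i hi => ?_
    have e1 := rank_le_neighbours hc hZA hi
    have e2 := neigh' hchord hZr i
    have e3 : ({r (i - 1), r (i + 1)} : Set V).ncard ≤
        {t | t ∈ Z ∧ t ≠ r i ∧ FaceOn c A {r i, t}}.ncard := by
      have := Set.ncard_insert_le (r (i - 1)) {r (i + 1)}
      rw [Set.ncard_singleton] at this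
      omega
    have e4 := Set.eq_of_subset_of_ncard_le e2 e3 (Set.toFinite _)
    have e5 : r (i + 1) ∈ ({r (i - 1), r (i + 1)} : Set V) := by simp
    rw [← e4] at e5
    exact e5.1
  have hZeq : (Z : Set V) = Set.range r := by
    ext w
    constructor
    · intro hw
      exact hZr w (by exact_mod_cast hw)
    · rintro ⟨i, rfl⟩
      exact_mod_cast hallZ i
  rw [← hZeq]
  exact ⟨hZA, hZ3⟩

lemma fin_zero_ne_one (n : ℕ) : (0 : Fin (n + 4)) ≠ 1 := by
  intro h
  have h3 := congrArg Fin.val h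
  change 0 % (n + 4) = 1 % (n + 4) at h3
  rw [Nat.mod_eq_of_lt (by omega), Nat.mod_eq_of_lt (by omega)] at h3
  omega

lemma fin_two_ne_one (n : ℕ) : (2 : Fin (n + 4)) ≠ 1 := by
  intro h
  have h3 := congrArg Fin.val h
  change 2 % (n + 4) = 1 % (n + 4) at h3
  rw [Nat.mod_eq_of_lt (by omega), Nat.mod_eq_of_lt (by omega)] at h3
  omega

/-- rank of a face that is strictly larger than `T` -/
lemma rank_four {c : V → E5} {F : Finset V} {T : Set V} {g : E5 →ₗ[ℝ] ℝ}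
    (hT : ∀ w ∈ T, w ∈ F) (hgT : ∀ w ∈ T, g (c w) = 0) (h3 : rk c T = 3)
    (hw : ∃ w ∈ F, 0 < g (c w)) : 4 ≤ rk c (F : Set V) := by
  obtain ⟨w, hwF, hgw⟩ := hw
  have hlt : span ℝ (c '' T) < span ℝ (c '' (F : Set V)) := by
    refine lt_of_le_of_ne (span_mono (Set.image_mono fun x hx => by exact_mod_cast hT x hx))
      fun h => ?_
    have h1 : c w ∈ span ℝ (c '' (F : Set V)) := subset_span ⟨w, by exact_mod_cast hwF, rfl⟩
    rw [← h] at h1
    have h2 : span ℝ (c '' T) ≤ LinearMap.ker g := by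
      rw [span_le]
      rintro _ ⟨v, hv, rfl⟩
      exact hgT v hv
    have h3 := h2 h1
    rw [LinearMap.mem_ker] at h3
    exact hgw.ne' h3
  have := Submodule.finrank_lt_finrank_of_lt hlt
  unfold rk at h3 ⊢
  omega

/-- G4-P8 (forcing a flat face). -/
theorem forcing {c : V → E5} {A : Finset V} (hc : Conf c A)
    (_hr : span ℝ (c '' (A : Set V)) = ⊤)
    {n : ℕ} (r : Fin (n + 4) → V) (hinj : Function.Injective r) (hrA : ∀ i, r i ∈ A)
    {p q s : V} (hpA : p ∈ A) (hqA : q ∈ A) (hsA : s ∈ A) (hpq : p ≠ q) (hps : p ≠ s) (hqs : q ≠ s)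
    (hpr : ∀ i, p ≠ r i) (hqr : ∀ i, q ≠ r i) (hsr : ∀ i, s ≠ r i)
    (hp : ∀ i, FaceOn c A {p, r i, r (i + 1)}) (hp3 : ∀ i, rk c {p, r i, r (i + 1)} = 3)
    (hq : ∀ i, FaceOn c A {q, r i, r (i + 1)})
    (h0 : FaceOn c A {p, q, r 0, r 1}) (_h04 : rk c {p, q, r 0, r 1} = 4)
    (h1 : FaceOn c A {p, q, s, r 1}) (_h14 : rk c {p, q, s, r 1} = 4)
    (h2 : FaceOn c A {p, q, s, r 0}) (_h24 : rk c {p, q, s, r 0} = 4)
    (hchord : ∀ i j, j ≠ i → j ≠ i + 1 → i ≠ j + 1 → ¬ FaceOn c A {r i, r j})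
    (hconn : ∀ u ∈ A, ∀ v ∈ A, u ∉ Set.range r → v ∉ Set.range r → u ≠ p → u ≠ q → v ≠ p →
      v ≠ q → Relation.ReflTransGen (fun a b => b ∈ A ∧ b ∉ Set.range r ∧ b ≠ p ∧ b ≠ q ∧
        a ≠ b ∧ FaceOn c A {a, b}) u v) :
    FaceOn c A (Set.range r) ∧ rk c (Set.range r) = 3 := by
  classical
  have e12 : (1 : Fin (n + 4)) + 1 = 2 := fin_one_add_one n
  have r01 : r 0 ≠ r 1 := fun h => fin_zero_ne_one n (hinj h)
  have r21 : r 2 ≠ r 1 := fun h => fin_two_ne_one n (hinj h)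
  have r20 : r 2 ≠ r 0 := fun h => fin_two_ne_zero n (hinj h)
  obtain ⟨-, gs, hgs, hgs0⟩ := h0
  obtain ⟨-, g₀, hg₀, hg₀0⟩ := h1
  obtain ⟨-, g₁, hg₁, hg₁0⟩ := h2
  obtain ⟨N, hN⟩ : ∃ N : E5 →ₗ[ℝ] ℝ, N = g₀ + g₁ + gs := ⟨_, rfl⟩
  have hNval : ∀ x, N x = g₀ x + g₁ x + gs x := by
    intro x
    rw [hN]
    rfl
  have gsp : gs (c p) = 0 := (hgs0 p hpA).2 (by simp)
  have gsq : gs (c q) = 0 := (hgs0 q hqA).2 (by simp)
  have gs0 : gs (c (r 0)) = 0 := (hgs0 _ (hrA 0)).2 (by simp)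
  have gs1 : gs (c (r 1)) = 0 := (hgs0 _ (hrA 1)).2 (by simp)
  have g0p : g₀ (c p) = 0 := (hg₀0 p hpA).2 (by simp)
  have g0q : g₀ (c q) = 0 := (hg₀0 q hqA).2 (by simp)
  have g0s : g₀ (c s) = 0 := (hg₀0 s hsA).2 (by simp)
  have g01 : g₀ (c (r 1)) = 0 := (hg₀0 _ (hrA 1)).2 (by simp)
  have g1p : g₁ (c p) = 0 := (hg₁0 p hpA).2 (by simp)
  have g1q : g₁ (c q) = 0 := (hg₁0 q hqA).2 (by simp)
  have g1s : g₁ (c s) = 0 := (hg₁0 s hsA).2 (by simp)
  have g10 : g₁ (c (r 0)) = 0 := (hg₁0 _ (hrA 0)).2 (by simp)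
  have gs_pos : ∀ w ∈ A, w ≠ p → w ≠ q → w ≠ r 0 → w ≠ r 1 → 0 < gs (c w) := by
    intro w hw h1 h2 h3 h4
    refine lt_of_le_of_ne (hgs w hw) fun h => ?_
    have := (hgs0 w hw).1 h.symm
    simp only [Set.mem_insert_iff, Set.mem_singleton_iff] at this
    tauto
  have g0_pos : ∀ w ∈ A, w ≠ p → w ≠ q → w ≠ s → w ≠ r 1 → 0 < g₀ (c w) := by
    intro w hw h1 h2 h3 h4
    refine lt_of_le_of_ne (hg₀ w hw) fun h => ?_
    have := (hg₀0 w hw).1 h.symm
    simp only [Set.mem_insert_iff, Set.mem_singleton_iff] at this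
    tauto
  have g1_pos : ∀ w ∈ A, w ≠ p → w ≠ q → w ≠ s → w ≠ r 0 → 0 < g₁ (c w) := by
    intro w hw h1 h2 h3 h4
    refine lt_of_le_of_ne (hg₁ w hw) fun h => ?_
    have := (hg₁0 w hw).1 h.symm
    simp only [Set.mem_insert_iff, Set.mem_singleton_iff] at this
    tauto
  have hNpos : ∀ w ∈ A, w ≠ p → w ≠ q → 0 < N (c w) := by
    intro w hw hwp hwq
    rw [hNval]
    have a1 := hg₀ w hw
    have a2 := hg₁ w hw
    have a3 := hgs w hw
    by_cases e0 : w = r 0
    · have := g0_pos w hw hwp hwq (fun h => hsr 0 (h ▸ e0)) (fun h => r01 (e0.symm.trans h))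
      linarith
    · by_cases e1 : w = r 1
      · have := g1_pos w hw hwp hwq (fun h => hsr 1 (h ▸ e1)) e0
        linarith
      · have := gs_pos w hw hwp hwq e0 e1
        linarith
  have hNnn : ∀ w ∈ A, 0 ≤ N (c w) := by
    intro w hw
    rw [hNval]
    have a1 := hg₀ w hw
    have a2 := hg₁ w hw
    have a3 := hgs w hw
    linarith
  have hNp : N (c p) = 0 := by rw [hNval, g0p, g1p, gsp]; ring
  have hNr : ∀ i, 0 < N (c (r i)) := fun i => hNpos _ (hrA i) (hpr i).symm (hqr i).symm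
  have hker : ∀ x, g₀ x = 0 → gs x = 0 → N x = 0 → ∃ α β : ℝ, x = α • c p + β • c q := by
    intro x k0 ks kN
    rw [hNval, k0, ks] at kN
    exact ker_lemma hc hpA hqA hpq g0p g0q g01 g0s
      (g0_pos _ (hrA 0) (hpr 0).symm (hqr 0).symm (hsr 0).symm r01).ne'
      g1p g1q g10 g1s
      (g1_pos _ (hrA 1) (hpr 1).symm (hqr 1).symm (hsr 1).symm r01.symm).ne'
      gsp gsq gs0 gs1 (gs_pos s hsA hps.symm hqs.symm (hsr 0) (hsr 1)).ne' x k0
      (by linarith) ks
  obtain ⟨P, hP⟩ : ∃ P : Fin (n + 4) → ℝ × ℝ, P = fun i => Pi g₀ gs N (c (r i)) := ⟨_, rfl⟩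
  have hPi : ∀ i, P i = Pi g₀ gs N (c (r i)) := by
    intro i
    rw [hP]
  have fC : ∀ (i : Fin (n + 4)) (Z : Finset V), FaceOn c A (Z : Set V) → ¬ (p ∈ Z ∧ q ∈ Z) →
      ∀ lam : V → ℝ, (∀ w ∈ Z, 0 < lam w) → 0 < N (∑ w ∈ Z, lam w • c w) →
      Pi g₀ gs N (∑ w ∈ Z, lam w • c w) ∈ segment ℝ (P i) (P (i + 1)) →
      (∀ w ∈ Z, w = p ∨ w = r i ∨ w = r (i + 1)) ∨
        (∀ w ∈ Z, w = q ∨ w = r i ∨ w = r (i + 1)) := by
    intro i Z hZ hpqZ lam hlam hNx hseg
    rw [hPi, hPi] at hseg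
    exact factC hpA hqA (hrA i) (hrA (i + 1)) hpq (hpr i) (hpr (i + 1)) (hqr i) (hqr (i + 1))
      hker (hNr i) (hNr (i + 1)) (hp i) (hq i) hZ hpqZ hlam hNx hseg
  -- single vertices
  have hsing : ∀ w ∈ A, w ∉ Set.range r → w ≠ p → w ≠ q → ∀ i,
      Pi g₀ gs N (c w) ∉ segment ℝ (P i) (P (i + 1)) := by
    intro w hw hwr hwp hwq i hmem
    have hs : ∑ v ∈ ({w} : Finset V), (fun _ => (1 : ℝ)) v • c v = c w := by
      rw [Finset.sum_singleton, one_smul]
    have hv : FaceOn c A (({w} : Finset V) : Set V) := by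
      rw [Finset.coe_singleton]
      exact hc.vert w hw
    have := fC i {w} hv (fun h => hwp (Finset.mem_singleton.1 h.1).symm) (fun _ => 1)
      (fun _ _ => one_pos) (by rw [hs]; exact hNpos w hw hwp hwq) (by rw [hs]; exact hmem)
    rcases this with h | h
    · rcases h w (Finset.mem_singleton_self w) with h | h | h
      · exact hwp h
      · exact hwr ⟨i, h.symm⟩
      · exact hwr ⟨i + 1, h.symm⟩
    · rcases h w (Finset.mem_singleton_self w) with h | h | h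
      · exact hwq h
      · exact hwr ⟨i, h.symm⟩
      · exact hwr ⟨i + 1, h.symm⟩
  -- edges
  have hedge : ∀ a ∈ A, ∀ b ∈ A, a ∉ Set.range r → b ∉ Set.range r → a ≠ p → a ≠ q → b ≠ p →
      b ≠ q → a ≠ b → FaceOn c A {a, b} → ∀ α β : ℝ, 0 < α → 0 < β → α + β = 1 → ∀ i,
      α • Pi g₀ gs N (c a) + β • Pi g₀ gs N (c b) ∉ segment ℝ (P i) (P (i + 1)) := by
    intro a ha b hb har hbr hap haq hbp hbq hab hf α β hα hβ hαβ i hmem
    have hNa := hNpos a ha hap haq
    have hNb := hNpos b hb hbp hbq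
    obtain ⟨k1, k2⟩ := Pi_comb g₀ gs N hNa hNb hαβ
    rw [← k2] at hmem
    have hs : ∑ v ∈ ({a, b} : Finset V),
        (fun v => if v = a then α / N (c a) else β / N (c b)) v • c v =
          (α / N (c a)) • c a + (β / N (c b)) • c b := by
      rw [Finset.sum_pair hab]
      simp only [if_true, if_neg hab.symm]
    have hv : FaceOn c A (({a, b} : Finset V) : Set V) := by
      rw [Finset.coe_pair]
      exact hf
    have := fC i {a, b} hv (by
        rintro ⟨h, -⟩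
        simp only [Finset.mem_insert, Finset.mem_singleton] at h
        rcases h with h | h
        · exact hap h.symm
        · exact hbp h.symm)
      (fun v => if v = a then α / N (c a) else β / N (c b))
      (fun v _ => by
        split_ifs
        · exact div_pos hα hNa
        · exact div_pos hβ hNb)
      (by rw [hs, k1]; exact one_pos) (by rw [hs]; exact hmem)
    have ha2 : a ∈ ({a, b} : Finset V) := by simp
    rcases this with h | h
    · rcases h a ha2 with h | h | h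
      · exact hap h
      · exact har ⟨i, h.symm⟩
      · exact har ⟨i + 1, h.symm⟩
    · rcases h a ha2 with h | h | h
      · exact haq h
      · exact har ⟨i, h.symm⟩
      · exact har ⟨i + 1, h.symm⟩
  -- large faces
  have hlarge : ∀ F : Finset V, FaceOn c A (F : Set V) → p ∈ F → r 1 ∈ F → r 2 ∈ F → q ∉ F →
      (∃ w ∈ F, w ≠ p ∧ w ≠ r 1 ∧ w ≠ r 2) → ∀ i, ∀ lam : V → ℝ, (∀ w ∈ F, 0 < lam w) →
      0 < N (∑ w ∈ F, lam w • c w) →
      Pi g₀ gs N (∑ w ∈ F, lam w • c w) ∉ segment ℝ (P i) (P (i + 1)) := by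
    intro F hF hpF h1F h2F hqF hw i lam hlam hNx hmem
    obtain ⟨w, hwF, hwp, hw1, hw2⟩ := hw
    rcases fC i F hF (fun h => hqF h.2) lam hlam hNx hmem with h | h
    · have a1 := (h _ h1F).resolve_left (hpr 1).symm
      have a2 := (h _ h2F).resolve_left (hpr 2).symm
      have a3 := (h _ hwF).resolve_left hwp
      rcases a1 with a1 | a1 <;> rcases a2 with a2 | a2 <;> rcases a3 with a3 | a3 <;>
      first
        | exact r21 (a2.trans a1.symm)
        | exact hw1 (a3.trans a1.symm)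
        | exact hw2 (a3.trans a2.symm)
    · rcases h _ hpF with h | h | h
      · exact hpq h
      · exact hpr i h
      · exact hpr (i + 1) h
  have hNF : ∀ F : Finset V, FaceOn c A (F : Set V) → r 1 ∈ F → 0 < N (∑ w ∈ F, c w) := by
    intro F hF h1F
    rw [map_sum]
    exact Finset.sum_pos' (fun w hw => hNnn w (by exact_mod_cast hF.1 (by exact_mod_cast hw)))
      ⟨_, h1F, hNr 1⟩
  -- the point on the edge `r 1`, `r 2`
  have hp1 := hp 1
  rw [e12] at hp1
  have hG : ∑ w ∈ ({p, r 1, r 2} : Finset V), c w = c p + c (r 1) + c (r 2) := by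
    rw [Finset.sum_insert, Finset.sum_pair r21.symm, add_assoc]
    simp only [Finset.mem_insert, Finset.mem_singleton]
    rintro (h | h)
    · exact hpr 1 h
    · exact hpr 2 h
  have hNG : N (∑ w ∈ ({p, r 1, r 2} : Finset V), c w) = N (c (r 1)) + N (c (r 2)) := by
    rw [hG, map_add, map_add, hNp, zero_add]
  have hNGpos : 0 < N (∑ w ∈ ({p, r 1, r 2} : Finset V), c w) := by
    rw [hNG]
    exact add_pos (hNr 1) (hNr 2)
  have hy0 : Pi g₀ gs N (∑ w ∈ ({p, r 1, r 2} : Finset V), c w) ∈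
      openSegment ℝ (P 1) (P (1 + 1)) := by
    rw [e12, hPi, hPi]
    have n1 := hNr 1
    have n2 := hNr 2
    refine ⟨N (c (r 1)) / (N (c (r 1)) + N (c (r 2))), N (c (r 2)) / (N (c (r 1)) + N (c (r 2))),
      by positivity, by positivity, by field_simp, ?_⟩
    unfold Pi
    rw [hNG, hG]
    ext
    · simp only [map_add, g0p, Prod.smul_mk, Prod.mk_add_mk, smul_eq_mul]
      field_simp
      ring
    · simp only [map_add, gsp, Prod.smul_mk, Prod.mk_add_mk, smul_eq_mul]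
      field_simp
      ring
  have hy0' : ∀ i, i ≠ 1 → Pi g₀ gs N (∑ w ∈ ({p, r 1, r 2} : Finset V), c w) ∉
      segment ℝ (P i) (P (i + 1)) := by
    intro i hi hmem
    have hs : ∑ v ∈ ({p, r 1, r 2} : Finset V), (fun _ => (1 : ℝ)) v • c v =
        ∑ w ∈ ({p, r 1, r 2} : Finset V), c w :=
      Finset.sum_congr rfl fun w _ => one_smul _ _
    have hv : FaceOn c A (({p, r 1, r 2} : Finset V) : Set V) := by
      simpa using hp1
    have m1 : r 1 ∈ ({p, r 1, r 2} : Finset V) := by simp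
    have m2 : r 2 ∈ ({p, r 1, r 2} : Finset V) := by simp
    have mp : p ∈ ({p, r 1, r 2} : Finset V) := by simp
    have mq : q ∉ ({p, r 1, r 2} : Finset V) := by
      simp only [Finset.mem_insert, Finset.mem_singleton]
      rintro (h | h | h)
      · exact hpq h.symm
      · exact hqr 1 h
      · exact hqr 2 h
    rcases fC i _ hv (fun h => mq h.2) (fun _ => 1) (fun _ _ => one_pos)
      (by rw [hs]; exact hNGpos) (by rw [hs]; exact hmem) with h | h
    · have a1 := (h _ m1).resolve_left (hpr 1).symm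
      have a2 := (h _ m2).resolve_left (hpr 2).symm
      rcases a1 with a1 | a1
      · exact hi (hinj a1).symm
      · rcases a2 with a2 | a2
        · have b1 := hinj a1
          have b2 := hinj a2
          have b3 : (0 : Fin (n + 4)) = i := by
            have : (0 : Fin (n + 4)) + 1 = i + 1 := by rw [zero_add]; exact b1
            exact add_right_cancel this
          exact fin_two_ne_zero n (b2.trans b3.symm)
        · exact r21 (a2.trans a1.symm)
    · rcases h _ mp with h | h | h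
      · exact hpq h
      · exact hpr i h
      · exact hpr (i + 1) h
  -- the polygon
  have gs2 : 0 < gs (c (r 2)) := gs_pos _ (hrA 2) (hpr 2).symm (hqr 2).symm r20 r21
  have g02 : 0 < g₀ (c (r 2)) := g0_pos _ (hrA 2) (hpr 2).symm (hqr 2).symm (hsr 2).symm r21
  have hP1 : P 1 = (0, 0) := by
    rw [hPi]
    unfold Pi
    rw [g01, gs1, zero_div]
  have hne : (P 1).1 ≠ (P (1 + 1)).1 := by
    rw [hP1, e12, hPi]
    exact (div_pos g02 (hNr 2)).ne
  obtain ⟨W, hW1, hW2⟩ := parity P 1 hne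
  -- the two facets at `p, r 1, r 2`
  obtain ⟨hTA, f, hf, hf0⟩ := hp1
  obtain ⟨g, hg⟩ : ∃ g : E5 →ₗ[ℝ] ℝ, g = gs (c (r 2)) • g₀ - g₀ (c (r 2)) • gs := ⟨_, rfl⟩
  have hgval : ∀ x, g x = gs (c (r 2)) * g₀ x - g₀ (c (r 2)) * gs x := by
    intro x
    rw [hg]
    rfl
  have hgT : ∀ w ∈ ({p, r 1, r 2} : Set V), g (c w) = 0 := by
    intro w hw
    simp only [Set.mem_insert_iff, Set.mem_singleton_iff] at hw
    rw [hgval]
    rcases hw with rfl | rfl | rfl
    · rw [g0p, gsp]; ring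
    · rw [g01, gs1]; ring
    · ring
  have hgq : g (c q) = 0 := by rw [hgval, g0q, gsq]; ring
  have hg0 : 0 < g (c (r 0)) := by
    rw [hgval, gs0, mul_zero, sub_zero]
    exact mul_pos gs2 (g0_pos _ (hrA 0) (hpr 0).symm (hqr 0).symm (hsr 0).symm r01)
  have hgs' : 0 < (-g) (c s) := by
    rw [LinearMap.neg_apply, hgval, g0s, mul_zero, zero_sub, neg_neg]
    exact mul_pos g02 (gs_pos s hsA hps.symm hqs.symm (hsr 0) (hsr 1))
  have hgT' : ∀ w ∈ ({p, r 1, r 2} : Set V), (-g) (c w) = 0 := by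
    intro w hw
    rw [LinearMap.neg_apply, hgT w hw, neg_zero]
  obtain ⟨F₁, hF₁, hTF₁, hd₁, hw₁⟩ := facet hf hf0 hTA hgT (hrA 0) hg0
  obtain ⟨F₂, hF₂, hTF₂, hd₂, hw₂⟩ := facet hf hf0 hTA hgT' hsA hgs'
  have hqT : q ∉ ({p, r 1, r 2} : Set V) := by
    simp only [Set.mem_insert_iff, Set.mem_singleton_iff]
    rintro (h | h | h)
    · exact hpq h.symm
    · exact hqr 1 h
    · exact hqr 2 h
  have hqF₁ : q ∉ F₁ := by
    intro h
    rcases hd₁ q h with h | h
    · exact hqT h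
    · rw [hgq] at h
      exact lt_irrefl _ h
  have hqF₂ : q ∉ F₂ := by
    intro h
    rcases hd₂ q h with h | h
    · exact hqT h
    · rw [LinearMap.neg_apply, hgq, neg_zero] at h
      exact lt_irrefl _ h
  have hother : ∀ g' : E5 →ₗ[ℝ] ℝ, (∀ w ∈ ({p, r 1, r 2} : Set V), g' (c w) = 0) →
      ∀ F : Finset V, (∃ w ∈ F, 0 < g' (c w)) → ∃ w ∈ F, w ≠ p ∧ w ≠ r 1 ∧ w ≠ r 2 := by
    rintro g' hg' F ⟨w, hw, hpos⟩
    refine ⟨w, hw, ?_, ?_, ?_⟩ <;> rintro rfl <;>
      exact lt_irrefl _ (by rw [hg' _ (by simp)] at hpos; exact hpos)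
  have hl₁ := hlarge F₁ hF₁ (hTF₁ p (by simp)) (hTF₁ _ (by simp)) (hTF₁ _ (by simp)) hqF₁
    (hother g hgT F₁ hw₁)
  have hl₂ := hlarge F₂ hF₂ (hTF₂ p (by simp)) (hTF₂ _ (by simp)) (hTF₂ _ (by simp)) hqF₂
    (hother (-g) hgT' F₂ hw₂)
  have hN₁ := hNF F₁ hF₁ (hTF₁ _ (by simp))
  have hN₂ := hNF F₂ hF₂ (hTF₂ _ (by simp))
  have hG₁ : ({p, r 1, r 2} : Finset V) ⊆ F₁ := fun w hw => hTF₁ w (by simpa using hw)
  have hG₂ : ({p, r 1, r 2} : Finset V) ⊆ F₂ := fun w hw => hTF₂ w (by simpa using hw)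
  have hgF₁ : 0 < g (∑ w ∈ F₁, c w) := by
    rw [map_sum]
    refine Finset.sum_pos' (fun w hw => ?_) hw₁
    rcases hd₁ w hw with h | h
    · exact (hgT w h).ge
    · exact h.le
  have hgF₂ : 0 < (-g) (∑ w ∈ F₂, c w) := by
    rw [map_sum]
    refine Finset.sum_pos' (fun w hw => ?_) hw₂
    rcases hd₂ w hw with h | h
    · exact (hgT' w h).ge
    · exact h.le
  have hside : ∀ x, 0 < N x → ((P (1 + 1)).1 - (P 1).1) * ((Pi g₀ gs N x).2 - (P 1).2) -
      ((P (1 + 1)).2 - (P 1).2) * ((Pi g₀ gs N x).1 - (P 1).1) =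
        (-g) x / (N (c (r 2)) * N x) := by
    intro x hx
    have n2 := hNr 2
    rw [hP1, e12, hPi, LinearMap.neg_apply, hgval]
    unfold Pi
    simp only [sub_zero]
    field_simp
    ring
  have hWne : W (Pi g₀ gs N (∑ w ∈ F₂, c w)) ≠ W (Pi g₀ gs N (∑ w ∈ F₁, c w)) := by
    have hrew : ∀ (y u : ℝ × ℝ) (t : ℝ), y + t • (u - y) = (1 - t) • y + t • u := by
      intro y u t
      rw [smul_sub, sub_smul, one_smul]
      abel
    refine hW2 _ _ _ hy0 hy0' ?_ ?_ ?_ ?_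
    · rw [hside _ hN₂]
      exact div_pos hgF₂ (mul_pos (hNr 2) hN₂)
    · rw [hside _ hN₁]
      refine div_neg_of_neg_of_pos ?_ (mul_pos (hNr 2) hN₁)
      rw [LinearMap.neg_apply]
      linarith
    · intro t ht0 ht1 i
      rw [hrew]
      exact halfopen hG₂ hNGpos hN₂ (hl₂ i) (by linarith) ht0 (by ring)
    · intro t ht0 ht1 i
      rw [hrew]
      exact halfopen hG₁ hNGpos hN₁ (hl₁ i) (by linarith) ht0 (by ring)
  -- vertices outside
  have hWout : ∀ F : Finset V, FaceOn c A (F : Set V) → 0 < N (∑ w ∈ F, c w) →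
      (∀ i, ∀ lam : V → ℝ, (∀ w ∈ F, 0 < lam w) → 0 < N (∑ w ∈ F, lam w • c w) →
        Pi g₀ gs N (∑ w ∈ F, lam w • c w) ∉ segment ℝ (P i) (P (i + 1))) →
      ∀ w ∈ F, w ∉ Set.range r → w ≠ p → w ≠ q →
        W (Pi g₀ gs N (c w)) = W (Pi g₀ gs N (∑ w ∈ F, c w)) := by
    intro F hF hNF' hl w hw hwr hwp hwq
    have hwA : w ∈ A := by exact_mod_cast hF.1 (by exact_mod_cast hw)
    refine hW1 _ _ fun i => Set.disjoint_left.2 ?_
    rintro z ⟨a, b, ha, hb, hab, rfl⟩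
    have hsw : ∑ v ∈ ({w} : Finset V), c v = c w := Finset.sum_singleton _ _
    rcases hb.eq_or_lt with hb0 | hb0
    · rw [← hb0, zero_smul, add_zero]
      have : a = 1 := by linarith
      rw [this, one_smul]
      exact hsing w hwA hwr hwp hwq i
    · have h3 := halfopen (g₀ := g₀) (gs := gs) (N := N) (c := c)
        (Finset.singleton_subset_iff.2 hw) (by rw [hsw]; exact hNpos w hwA hwp hwq) hNF' (hl i)
        ha hb0 hab
      rwa [hsw] at h3
  have hpath : ∀ u ∈ A, ∀ v ∈ A, u ∉ Set.range r → v ∉ Set.range r → u ≠ p → u ≠ q → v ≠ p →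
      v ≠ q → W (Pi g₀ gs N (c u)) = W (Pi g₀ gs N (c v)) := by
    intro u hu v hv hur hvr hup huq hvp hvq
    have h := hconn u hu v hv hur hvr hup huq hvp hvq
    have key : W (Pi g₀ gs N (c u)) = W (Pi g₀ gs N (c v)) ∧ v ∈ A ∧ v ∉ Set.range r ∧ v ≠ p ∧
        v ≠ q := by
      clear hv hvr hvp hvq
      induction h with
      | refl => exact ⟨rfl, hu, hur, hup, huq⟩
      | tail _ hstep ih =>
        rename_i b d _
        obtain ⟨ih0, hbA, hbr, hbp, hbq⟩ := ih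
        obtain ⟨hdA, hdr, hdp, hdq, hbd, hface⟩ := hstep
        refine ⟨ih0.trans ?_, hdA, hdr, hdp, hdq⟩
        refine hW1 _ _ fun i => Set.disjoint_left.2 ?_
        rintro z ⟨α, β, hα, hβ, hαβ, rfl⟩
        rcases hα.eq_or_lt with h0 | h0
        · rw [← h0, zero_smul, zero_add]
          have : β = 1 := by linarith
          rw [this, one_smul]
          exact hsing d hdA hdr hdp hdq i
        · rcases hβ.eq_or_lt with h0' | h0'
          · rw [← h0', zero_smul, add_zero]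
            have : α = 1 := by linarith
            rw [this, one_smul]
            exact hsing b hbA hbr hbp hbq i
          · exact hedge b hbA d hdA hbr hdr hbp hbq hdp hdq hbd hface α β h0 h0' hαβ i
    exact key.1
  have hcase : (∀ w ∈ F₁, w = p ∨ w ∈ Set.range r) ∨ (∀ w ∈ F₂, w = p ∨ w ∈ Set.range r) := by
    by_contra hcon
    push Not at hcon
    obtain ⟨⟨w₁, hw₁F, hw₁p, hw₁r⟩, ⟨w₂, hw₂F, hw₂p, hw₂r⟩⟩ := hcon
    have hw₁A : w₁ ∈ A := by exact_mod_cast hF₁.1 (by exact_mod_cast hw₁F)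
    have hw₂A : w₂ ∈ A := by exact_mod_cast hF₂.1 (by exact_mod_cast hw₂F)
    have hw₁q : w₁ ≠ q := fun h => hqF₁ (h ▸ hw₁F)
    have hw₂q : w₂ ≠ q := fun h => hqF₂ (h ▸ hw₂F)
    have k1 := hWout F₁ hF₁ hN₁ hl₁ w₁ hw₁F hw₁r hw₁p hw₁q
    have k2 := hWout F₂ hF₂ hN₂ hl₂ w₂ hw₂F hw₂r hw₂p hw₂q
    have k3 := hpath w₁ hw₁A w₂ hw₂A hw₁r hw₂r hw₁p hw₁q hw₂p hw₂q
    exact hWne (k2.symm.trans (k3.symm.trans k1))
  have hrk3 : rk c ({p, r 1, r 2} : Set V) = 3 := by
    have := hp3 1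
    rwa [e12] at this
  rcases hcase with h | h
  · exact final hc r hinj hpr hchord hF₁ (rank_four hTF₁ hgT hrk3 hw₁) (hTF₁ _ (by simp)) h
  · exact final hc r hinj hpr hchord hF₂ (rank_four hTF₂ hgT' hrk3 hw₂) (hTF₂ _ (by simp)) h

end Pool.Agent.Helper4.G4
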